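import Mathlib
import Pool.Agent.Q206.MH.Max

set_option autoImplicit false

/-!
# The extremal unit-lag moment ratio of random walk Metropolis chains on the integers

`Admissible`, `acc`, `trans`, `jump` (`E|X₁-X₀|^r`), `moment` (`E|X₀|^r`), the extremal ratio `s`,
the power sum `S` and `g` are defined in `Pool/Agent/Q206/MH/Basic.lean`.
-/

namespace Pool.Agent.Results.MP_819a4a_pr.ExtremalRatio

open Pool.Agent.Q206.MH

/-- For every `r > 0`, `s(r) = sup_k g(k;r)`, and the supremum is attained at some `k ≤ ⌈r⌉`. -/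
theorem result (r : ℝ) (hr : 0 < r) :
    s r = ⨆ k : {k : ℕ // 1 ≤ k}, ENNReal.ofReal (g k r) ∧
    ∃ K : ℕ, 1 ≤ K ∧ K ≤ ⌈r⌉₊ ∧ s r = ENNReal.ofReal (g K r) ∧
      ∀ k : ℕ, 1 ≤ k → g k r ≤ g K r := by
  obtain ⟨K, hK1, hK2, hmax⟩ := exists_max hr
  have h := s_eq_of_max hr hK1 hmax
  refine ⟨?_, K, hK1, hK2, h, hmax⟩
  refine le_antisymm ?_ (iSup_le fun k => g_le_s k.2 hr)
  rw [h]
  exact le_iSup (fun k : {k : ℕ // 1 ≤ k} => ENNReal.ofReal (g k r)) ⟨K, hK1⟩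

end Pool.Agent.Results.MP_819a4a_pr.ExtremalRatio
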